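import Mathlib

/-!
# Graphs of high girth whose adjacency matrix is near a matrix of low rank
-/

set_option autoImplicit false

namespace Pool.Agent.Results.MP_97687e_co.NearlyLowRank

open Finset

lemma greedy {V : Type} [DecidableEq V] (B : V → Finset V) (b : ℕ) :
    ∀ (m : ℕ) (R : Finset V), #R = m → (∀ x ∈ R, x ∈ B x) → (∀ x ∈ R, #(B x ∩ R) ≤ b) →
      ∃ (k : ℕ) (f : Fin k → V), (∀ i, f i ∈ R) ∧ (∀ i j, i < j → f j ∉ B (f i)) ∧
        m ≤ k * b := by
  intro m
  induction m using Nat.strong_induction_on with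
  | _ m ih =>
    intro R hR h1 h2
    rcases R.eq_empty_or_nonempty with h | ⟨x, hx⟩
    · refine ⟨0, Fin.elim0, fun i => i.elim0, fun i => i.elim0, ?_⟩
      rw [← hR, h]; simp
    · have hlt : #(R \ B x) < m := by
        rw [← hR]
        exact Finset.card_lt_card ⟨sdiff_subset, fun h' => (mem_sdiff.1 (h' hx)).2 (h1 x hx)⟩
      obtain ⟨k, f, hf1, hf2, hf3⟩ := ih _ hlt (R \ B x) rfl
        (fun y hy => h1 y (mem_sdiff.1 hy).1)
        (fun y hy => (Finset.card_le_card
          (Finset.inter_subset_inter_left sdiff_subset)).trans (h2 y (mem_sdiff.1 hy).1))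
      refine ⟨k + 1, Fin.cons x f, ?_, ?_, ?_⟩
      · intro i
        refine Fin.cases ?_ (fun j => ?_) i
        · simpa using hx
        · simpa using (mem_sdiff.1 (hf1 j)).1
      · intro i j
        refine Fin.cases ?_ (fun i' => ?_) i
        · refine Fin.cases ?_ (fun j' => ?_) j
          · intro h; exact absurd h (lt_irrefl _)
          · intro _
            simpa using (mem_sdiff.1 (hf1 j')).2
        · refine Fin.cases ?_ (fun j' => ?_) j
          · intro h; exact absurd h (by simp)
          · intro h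
            simpa using hf2 i' j' (by simpa using h)
      · have h3 : #(B x ∩ R) + #(R \ B x) = m := by
          rw [← hR, Finset.inter_comm]
          exact Finset.card_inter_add_card_sdiff R (B x)
        have h4 := h2 x hx
        rw [Nat.add_mul]
        omega

variable {V : Type} [Fintype V]

/-- There are a matrix of rank at most `r` over a field and a set `E` of entries with at most `u`
entries in every row and column such that off `E` the matrix has its nonzero entries exactly at the
pairs of adjacent vertices of `G`. -/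
def NearRank [DecidableEq V] (r u : ℕ) (G : SimpleGraph V) : Prop :=
  ∃ (K : Type) (_ : Field K) (M : Matrix V V K) (E : Finset (V × V)), M.rank ≤ r ∧
    (∀ x, #(univ.filter fun y => (x, y) ∈ E) ≤ u) ∧
    (∀ y, #(univ.filter fun x => (x, y) ∈ E) ≤ u) ∧
    ∀ x y, (x, y) ∉ E → (M x y ≠ 0 ↔ G.Adj x y)

/-- Every cycle of `G` has more than `L` edges. -/
def GirthAbove (L : ℕ) (G : SimpleGraph V) : Prop :=
  ∀ (v : V) (c : G.Walk v v), c.IsCycle → L < c.length

lemma rank_ge {K : Type} [Field K] (M : Matrix V V K) {k : ℕ} (f : Fin k → V) (g : Fin k → V)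
    (h1 : ∀ i, M (f i) (g i) ≠ 0) (h2 : ∀ i j, i < j → M (f j) (g i) = 0) : k ≤ M.rank := by
  have h3 := Matrix.rank_submatrix_le M f g
  have h4 : (M.submatrix f g).det ≠ 0 := by
    have h5 : (M.submatrix f g).IsUpperTriangular := fun i j hij => h2 j i hij
    rw [Matrix.det_of_isUpperTriangular h5]
    exact Finset.prod_ne_zero_iff.2 fun i _ => h1 i
  rw [Matrix.rank_of_det_ne_zero h4, Fintype.card_fin] at h3
  exact h3

omit [Fintype V] in
/-- In a graph without short cycles two paths with the same ends and few edges are equal. -/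
lemma two_paths {L : ℕ} {G : SimpleGraph V} (hG : GirthAbove L G) {v w : V} (p q : G.Walk v w)
    (hp : p.IsPath) (hq : q.IsPath) (hl : p.length + q.length ≤ L) : p = q := by
  classical
  let H : SimpleGraph V := SimpleGraph.fromEdgeSet {e | e ∈ p.edges ∨ e ∈ q.edges}
  have hH : ∀ e, e ∈ H.edgeSet ↔ (e ∈ p.edges ∨ e ∈ q.edges) ∧ ¬ e.IsDiag := by
    intro e
    simp [H, SimpleGraph.edgeSet_fromEdgeSet]
  have hHG : H ≤ G := by
    rw [← SimpleGraph.edgeSet_subset_edgeSet]
    intro e he
    rcases ((hH e).1 he).1 with h | h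
    · exact p.edges_subset_edgeSet h
    · exact q.edges_subset_edgeSet h
  have hpH : ∀ e ∈ p.edges, e ∈ H.edgeSet := fun e he =>
    (hH e).2 ⟨Or.inl he, G.not_isDiag_of_mem_edgeSet (p.edges_subset_edgeSet he)⟩
  have hqH : ∀ e ∈ q.edges, e ∈ H.edgeSet := fun e he =>
    (hH e).2 ⟨Or.inr he, G.not_isDiag_of_mem_edgeSet (q.edges_subset_edgeSet he)⟩
  have hac : H.IsAcyclic := by
    intro x c hc
    have h1 := hG x (c.mapLe hHG) (hc.mapLe hHG)
    have h2 : c.edges.Nodup := hc.edges_nodup
    have h3 : c.edges ⊆ p.edges ++ q.edges := by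
      intro e he
      rw [List.mem_append]
      exact ((hH e).1 (c.edges_subset_edgeSet he)).1
    have h4 := (List.subperm_of_subset h2 h3).length_le
    rw [List.length_append, SimpleGraph.Walk.length_edges, SimpleGraph.Walk.length_edges,
      SimpleGraph.Walk.length_edges] at h4
    rw [SimpleGraph.Walk.mapLe, SimpleGraph.Walk.length_map] at h1
    omega
  have h := (hac.subsingleton_path v w).elim ⟨p.transfer H hpH, hp.transfer hpH⟩
    ⟨q.transfer H hqH, hq.transfer hqH⟩
  have h5 : p.transfer H hpH = q.transfer H hqH := congrArg Subtype.val h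
  apply SimpleGraph.Walk.ext_support
  have h6 := congrArg SimpleGraph.Walk.support h5
  rwa [SimpleGraph.Walk.support_transfer, SimpleGraph.Walk.support_transfer] at h6

omit [Fintype V] in
/-- In a graph without short cycles a path can be extended by every edge but its last one. -/
lemma ext_path {L : ℕ} {G : SimpleGraph V} (hG : GirthAbove L G) {v w z : V} (p : G.Walk v w)
    (hp : p.IsPath) (h : G.Adj w z) (hl : p.length + 1 ≤ L) (hz : z ≠ p.penultimate) :
    (p.concat h).IsPath := by
  classical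
  refine hp.concat ?_ h
  intro hmem
  have h1 : (SimpleGraph.Walk.cons h.symm SimpleGraph.Walk.nil : G.Walk z w).IsPath := by
    simp [h.ne']
  have h2 := two_paths hG (p.dropUntil z hmem) (SimpleGraph.Walk.cons h.symm SimpleGraph.Walk.nil)
    (hp.dropUntil hmem) h1 (by
      have := p.length_dropUntil_le_length hmem
      simp only [SimpleGraph.Walk.length_cons, SimpleGraph.Walk.length_nil]
      omega)
  have h3 : p = (p.takeUntil z hmem).concat h.symm := by
    conv_lhs => rw [← p.take_spec hmem, h2]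
    rfl
  apply hz
  rw [h3, SimpleGraph.Walk.penultimate_concat]

section spheres

variable [DecidableEq V]

open Classical in
/-- The vertices of `W` at the end of a path with `j` edges from `v`. -/
noncomputable def Sph (G : SimpleGraph V) (W : Finset V) (v : V) (j : ℕ) : Finset V :=
  W.filter fun w => ∃ p : G.Walk v w, p.IsPath ∧ p.length = j

omit [Fintype V] in
open Classical in
lemma level {m : ℕ} {G : SimpleGraph V} (hG : GirthAbove (2 * m) G) {W : Finset V} {k : ℕ}
    (hW : ∀ w ∈ W, k + 1 ≤ #(W.filter fun z => G.Adj w z)) {v : V} {j : ℕ} (hj : j + 1 ≤ m)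
    {w : V} (hw : w ∈ Sph G W v j) :
    ∃ A : Finset V, k ≤ #A ∧ ∀ z ∈ A, G.Adj w z ∧ z ∈ Sph G W v (j + 1) ∧
      ∀ w' ∈ Sph G W v j, G.Adj w' z → w' = w := by
  obtain ⟨hwW, p, hp, hpl⟩ := mem_filter.1 hw
  refine ⟨(W.filter fun z => G.Adj w z).erase p.penultimate, ?_, ?_⟩
  · have h1 := Finset.pred_card_le_card_erase (s := W.filter fun z => G.Adj w z)
      (a := p.penultimate)
    have h2 := hW w hwW
    omega
  · intro z hz
    obtain ⟨hz1, hz2⟩ := mem_erase.1 hz
    obtain ⟨hz3, hz4⟩ := mem_filter.1 hz2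
    have hpz := ext_path hG p hp hz4 (by omega) hz1
    refine ⟨hz4, mem_filter.2 ⟨hz3, p.concat hz4, hpz, ?_⟩, ?_⟩
    · rw [SimpleGraph.Walk.length_concat, hpl]
    · intro w' hw' hadj
      obtain ⟨hw'W, q, hq, hql⟩ := mem_filter.1 hw'
      by_contra hne
      have h1 := ext_path hG (p.concat hz4) hpz hadj.symm (by
        rw [SimpleGraph.Walk.length_concat, hpl]; omega) (by
        rw [SimpleGraph.Walk.penultimate_concat]; exact hne)
      have h2 := two_paths hG _ q h1 hq (by
        rw [SimpleGraph.Walk.length_concat, SimpleGraph.Walk.length_concat]; omega)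
      have h3 := congrArg SimpleGraph.Walk.length h2
      rw [SimpleGraph.Walk.length_concat, SimpleGraph.Walk.length_concat] at h3
      omega

omit [Fintype V] in
open Classical in
lemma growth {m : ℕ} {G : SimpleGraph V} (hG : GirthAbove (2 * m) G) {W : Finset V} {k : ℕ}
    (hW : ∀ w ∈ W, k + 1 ≤ #(W.filter fun z => G.Adj w z)) {v : V} (hv : v ∈ W) :
    ∀ j : ℕ, j + 1 ≤ m → (k + 1) * k ^ j ≤ #(Sph G W v (j + 1)) := by
  intro j
  induction j with
  | zero =>
    intro _
    have h1 : (W.filter fun z => G.Adj v z) ⊆ Sph G W v 1 := by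
      intro z hz
      obtain ⟨hz1, hz2⟩ := mem_filter.1 hz
      refine mem_filter.2 ⟨hz1, SimpleGraph.Walk.cons hz2 SimpleGraph.Walk.nil, ?_, ?_⟩
      · simp [hz2.ne]
      · simp
    simpa using (hW v hv).trans (Finset.card_le_card h1)
  | succ j ih =>
    intro hj
    have h0 := ih (by omega)
    have hlev : ∀ w ∈ Sph G W v (j + 1), _ := fun w hw => level hG hW (v := v) (j := j + 1) hj hw
    choose! A hA1 hA2 using hlev
    have h1 : (Sph G W v (j + 1)).biUnion A ⊆ Sph G W v (j + 1 + 1) := by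
      intro z hz
      obtain ⟨w, hw, hzw⟩ := Finset.mem_biUnion.1 hz
      exact (hA2 w hw z hzw).2.1
    have h2 : #((Sph G W v (j + 1)).biUnion A) = ∑ w ∈ Sph G W v (j + 1), #(A w) := by
      apply Finset.card_biUnion
      intro w hw w' hw' hne
      rw [Function.onFun, Finset.disjoint_left]
      intro z hz hz'
      apply hne
      exact ((hA2 w hw z hz).2.2 w' hw' (hA2 w' hw' z hz').1).symm
    calc (k + 1) * k ^ (j + 1) = ((k + 1) * k ^ j) * k := by ring
      _ ≤ #(Sph G W v (j + 1)) * k := Nat.mul_le_mul_right k h0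
      _ = ∑ w ∈ Sph G W v (j + 1), k := by rw [Finset.sum_const, smul_eq_mul]
      _ ≤ ∑ w ∈ Sph G W v (j + 1), #(A w) := Finset.sum_le_sum hA1
      _ = #((Sph G W v (j + 1)).biUnion A) := h2.symm
      _ ≤ _ := Finset.card_le_card h1

open Classical in
lemma rows {m r u : ℕ} {G : SimpleGraph V} (hG : GirthAbove (2 * m) G) (hr : NearRank r u G)
    {W : Finset V} {k : ℕ} (hk : u + 1 ≤ k)
    (hW : ∀ w ∈ W, k + 1 ≤ #(W.filter fun z => G.Adj w z)) (v : V) {j : ℕ} (hj : j + 1 ≤ m) :
    #(Sph G W v j) ≤ r * (1 + u) := by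
  obtain ⟨K, _, M, E, hM, hE1, hE2, hMG⟩ := hr
  have hlight : ∀ w ∈ Sph G W v j, ∃ z, G.Adj w z ∧ (w, z) ∉ E ∧
      ∀ w' ∈ Sph G W v j, G.Adj w' z → w' = w := by
    intro w hw
    obtain ⟨A, hA1, hA2⟩ := level hG hW (v := v) hj hw
    have h0 : #(univ.filter fun y => (w, y) ∈ E) ≤ u := by convert hE1 w
    have h1 : #(univ.filter fun y => (w, y) ∈ E) < #A := by omega
    obtain ⟨z, hz1, hz2⟩ := Finset.exists_mem_notMem_of_card_lt_card h1
    exact ⟨z, (hA2 z hz1).1, fun h' => hz2 (mem_filter.2 ⟨mem_univ _, h'⟩), (hA2 z hz1).2.2⟩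
  rcases isEmpty_or_nonempty V with hY | hY
  · exact hY.elim v
  choose! c hc1 hc2 hc3 using hlight
  let B : V → Finset V := fun x => insert x (univ.filter fun x' => (x', c x) ∈ E)
  obtain ⟨l, f, hf1, hf2, hf3⟩ := greedy B (1 + u) _ (Sph G W v j) rfl
    (fun x hx => mem_insert_self _ _)
    (fun x hx => by
      refine (Finset.card_le_card Finset.inter_subset_left).trans
        ((Finset.card_insert_le _ _).trans ?_)
      have h0 : #(univ.filter fun x' => (x', c x) ∈ E) ≤ u := by convert hE2 (c x)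
      omega)
  have hk : l ≤ M.rank := by
    apply rank_ge M f (fun i => c (f i))
    · intro i
      exact (hMG _ _ (hc2 _ (hf1 i))).2 (hc1 _ (hf1 i))
    · intro i j' hij
      have h1 := hf2 i j' hij
      simp only [B, mem_insert, not_or] at h1
      by_contra h0
      have h2 : (f j', c (f i)) ∉ E := fun h' => h1.2 (mem_filter.2 ⟨mem_univ _, h'⟩)
      exact h1.1 (hc3 _ (hf1 i) _ (hf1 j') ((hMG _ _ h2).1 h0))
  exact hf3.trans (Nat.mul_le_mul_right (1 + u) (hk.trans hM))

open Classical in
lemma dense_part {G : SimpleGraph V} {k : ℕ} :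
    ∀ (n : ℕ) (W : Finset V), #W = n → 2 * k * n < ∑ x ∈ W, #(W.filter fun z => G.Adj x z) →
      ∃ W' : Finset V, W'.Nonempty ∧ ∀ w ∈ W', k + 1 ≤ #(W'.filter fun z => G.Adj w z) := by
  intro n
  induction n with
  | zero =>
    intro W hW h
    rw [Finset.card_eq_zero.1 hW] at h
    simp at h
  | succ n ih =>
    intro W hW h
    by_cases hall : ∀ w ∈ W, k + 1 ≤ #(W.filter fun z => G.Adj w z)
    · exact ⟨W, Finset.card_pos.1 (by omega), hall⟩
    · push Not at hall
      obtain ⟨x, hx, hxk⟩ := hall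
      apply ih (W.erase x) (by rw [Finset.card_erase_of_mem hx, hW]; rfl)
      have h1 : ∀ y ∈ W.erase x, #(W.filter fun z => G.Adj y z) =
          #((W.erase x).filter fun z => G.Adj y z) + if G.Adj x y then 1 else 0 := by
        intro y hy
        conv_lhs => rw [← Finset.insert_erase hx]
        rw [Finset.filter_insert]
        by_cases hxy : G.Adj x y
        · rw [if_pos hxy.symm, if_pos hxy, Finset.card_insert_of_notMem]
          simp
        · rw [if_neg (fun h => hxy h.symm), if_neg hxy, Nat.add_zero]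
      have h2 : ∑ y ∈ W.erase x, (if G.Adj x y then 1 else 0) = #(W.filter fun z => G.Adj x z) := by
        rw [← Finset.card_filter]
        congr 1
        ext y
        simp only [mem_filter, mem_erase]
        constructor
        · rintro ⟨⟨_, h3⟩, h4⟩
          exact ⟨h3, h4⟩
        · rintro ⟨h3, h4⟩
          exact ⟨⟨h4.ne', h3⟩, h4⟩
      have h3 := Finset.add_sum_erase W (fun y => #(W.filter fun z => G.Adj y z)) hx
      rw [Finset.sum_congr rfl h1, Finset.sum_add_distrib, h2] at h3
      have h4 : 2 * k * (n + 1) = 2 * k * n + 2 * k := by ring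
      omega

theorem main {m r u k : ℕ} (hm : 2 ≤ m) (hk : u + 1 ≤ k) (G : SimpleGraph V)
    (hG : GirthAbove (2 * m) G) (hr : NearRank r u G)
    (hrk : r * (1 + u) < (k + 1) * k ^ (m - 2)) :
    Nat.card G.edgeSet ≤ k * Fintype.card V := by
  classical
  by_contra hcon
  push Not at hcon
  have h1 : ∑ x, #(univ.filter fun z => G.Adj x z) = 2 * Nat.card G.edgeSet := by
    rw [Nat.card_eq_fintype_card, ← SimpleGraph.edgeFinset_card,
      ← SimpleGraph.sum_degrees_eq_twice_card_edges]
    apply Finset.sum_congr rfl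
    intro v _
    rw [← SimpleGraph.card_neighborFinset_eq_degree, SimpleGraph.neighborFinset_eq_filter]
  obtain ⟨W, ⟨v, hv⟩, hW⟩ := dense_part (G := G) (k := k) (Fintype.card V) univ rfl (by
    rw [h1]
    have : 2 * k * Fintype.card V = 2 * (k * Fintype.card V) := by ring
    omega)
  obtain ⟨j, rfl⟩ : ∃ j, m = j + 2 := ⟨m - 2, by omega⟩
  have h2 := growth hG hW hv j (by omega)
  have h3 := rows hG hr hk hW v (j := j + 1) (by omega)
  rw [Nat.add_sub_cancel] at hrk
  omega

theorem asym {m r u : ℕ} (hm : 2 ≤ m) (c : ℝ) [Nonempty V] (G : SimpleGraph V)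
    (hG : GirthAbove (2 * m) G) (hr : NearRank r u G)
    (hc : c * (Fintype.card V : ℝ) ^ (1 + 1 / (m : ℝ)) ≤ Nat.card G.edgeSet)
    (hu : u + 1 < c * (Fintype.card V : ℝ) ^ (1 / (m : ℝ))) :
    c * (Fintype.card V : ℝ) ^ (1 / (m : ℝ)) *
      (c * (Fintype.card V : ℝ) ^ (1 / (m : ℝ)) - 1) ^ (m - 2) ≤ r * (1 + u) := by
  have hn : (0 : ℝ) < Fintype.card V := by exact_mod_cast Fintype.card_pos
  set x : ℝ := c * (Fintype.card V : ℝ) ^ (1 / (m : ℝ)) with hx
  have hxe : x * Fintype.card V ≤ Nat.card G.edgeSet := by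
    refine le_trans (le_of_eq ?_) hc
    rw [hx, Real.rpow_add hn, Real.rpow_one]
    ring
  have hu0 : (0 : ℝ) ≤ u := Nat.cast_nonneg u
  have hx0 : 0 < x := by linarith
  obtain ⟨k, hk⟩ : ∃ k : ℕ, ⌈x⌉₊ = k + 1 :=
    ⟨⌈x⌉₊ - 1, by have := Nat.ceil_pos.2 hx0; omega⟩
  have hk1 : (k : ℝ) < x := by
    have : k < ⌈x⌉₊ := by omega
    exact Nat.lt_ceil.1 this
  have hk2 : x ≤ k + 1 := by
    have := Nat.le_ceil x
    rw [hk] at this
    push_cast at this
    exact this
  have hk3 : u + 1 ≤ k := by
    have : (u : ℝ) < k := by linarith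
    have h1 : u < k := by exact_mod_cast this
    omega
  by_contra hcon
  push Not at hcon
  have h1 : r * (1 + u) < (k + 1) * k ^ (m - 2) := by
    have h2 : x * (x - 1) ^ (m - 2) ≤ (k + 1) * (k : ℝ) ^ (m - 2) := by
      apply mul_le_mul hk2 _ (pow_nonneg (by linarith) _) (by positivity)
      exact pow_le_pow_left₀ (by linarith) (by linarith) _
    have h3 := hcon.trans_le h2
    exact_mod_cast h3
  have h4 := main hm hk3 G hG hr h1
  have h5 : (Nat.card G.edgeSet : ℝ) ≤ k * Fintype.card V := by exact_mod_cast h4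
  nlinarith

end spheres

/-- **Graphs of high girth and nearly low-rank adjacency matrices.** -/
theorem result :
    -- 1. the bound for the number of edges
    (∀ (V : Type) [Fintype V] [DecidableEq V] (m r u k : ℕ) (G : SimpleGraph V),
      2 ≤ m → u + 1 ≤ k → GirthAbove (2 * m) G → NearRank r u G →
      r * (1 + u) < (k + 1) * k ^ (m - 2) →
      Nat.card G.edgeSet ≤ k * Fintype.card V) ∧
    -- 2. graphs with `c n ^ (1 + 1 / m)` edges
    (∀ (V : Type) [Fintype V] [DecidableEq V] [Nonempty V] (m r u : ℕ) (c : ℝ)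
      (G : SimpleGraph V), 2 ≤ m → GirthAbove (2 * m) G → NearRank r u G →
      c * (Fintype.card V : ℝ) ^ (1 + 1 / (m : ℝ)) ≤ Nat.card G.edgeSet →
      u + 1 < c * (Fintype.card V : ℝ) ^ (1 / (m : ℝ)) →
      c * (Fintype.card V : ℝ) ^ (1 / (m : ℝ)) *
        (c * (Fintype.card V : ℝ) ^ (1 / (m : ℝ)) - 1) ^ (m - 2) ≤ r * (1 + u)) :=
  ⟨fun _ _ _ _ _ _ _ G hm hk hG hr hrk => main hm hk G hG hr hrk,
    fun _ _ _ _ _ _ _ c G hm hG hr hc hu => asym hm c G hG hr hc hu⟩

end Pool.Agent.Results.MP_97687e_co.NearlyLowRank
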